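import Pool.Agent.Lib.MP_4b56aa_gt.Defs

/-! Horseshoes, in the wide and in the strict reading of the word segment. -/

namespace Pool.Agent.Lib.MP_4b56aa_gt

open Set

/-- `H` is a horseshoe for the `R`-stadium around `[a, b]`: the union of an arc
`γ = g '' [0, 1]` of `M_r` (the `(R - r)`-stadium around `[a, b]`), a segment from the endpoint
`g 0` to a point `p` of the tangent line to `γ` at `g 0`, and a segment from the endpoint `g 1`
to a point `q` of the tangent line to `γ` at `g 1`.  If `strict` holds, both segments are also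
required to have positive length and to point away from the arc. -/
def Horseshoe (strict : Prop) (r R : ℝ) (a b : Plane) (H : Set Plane) : Prop :=
  ∃ (g : ℝ → Plane) (p q : Plane),
    ContinuousOn g (Icc 0 1) ∧ InjOn g (Icc 0 1) ∧ g '' Icc 0 1 ⊆ stadium (R - r) a b ∧
    p - g 0 ∈ tangentConeAt ℝ (g '' Icc 0 1) (g 0) ∧
    q - g 1 ∈ tangentConeAt ℝ (g '' Icc 0 1) (g 1) ∧
    (strict → p ≠ g 0 ∧ q ≠ g 1 ∧ g 0 - p ∈ posTangentConeAt (g '' Icc 0 1) (g 0) ∧
      g 1 - q ∈ posTangentConeAt (g '' Icc 0 1) (g 1)) ∧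
    H = g '' Icc 0 1 ∪ segment ℝ (g 0) p ∪ segment ℝ (g 1) q

end Pool.Agent.Lib.MP_4b56aa_gt
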