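import Pool.Agent.Lib.MP_4b56aa_gt.Gap

/-! The competitor with two gaps and a Steiner bridge for a long stadium. -/

namespace Pool.Agent.Lib.MP_4b56aa_gt

open Set Metric Filter Topology MeasureTheory

/-- The horizontal segment from `-l` to `l`. -/
def seg (l : ℝ) : Set ℂ := segment ℝ (-(l : ℂ)) (l : ℂ)

lemma mem_seg {l : ℝ} (hl : 0 < l) {z : ℂ} : z ∈ seg l ↔ z.im = 0 ∧ |z.re| ≤ l := by
  constructor
  · rintro ⟨α, β, hα, hβ, hs, rfl⟩
    refine ⟨by simp, ?_⟩
    simp only [Complex.add_re, Complex.smul_re, Complex.neg_re, Complex.ofReal_re, smul_eq_mul]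
    rw [abs_le]
    constructor <;> nlinarith
  · rintro ⟨h1, h2⟩
    rw [abs_le] at h2
    refine ⟨(l - z.re) / (2 * l), (l + z.re) / (2 * l), div_nonneg (by linarith) (by linarith),
      div_nonneg (by linarith) (by linarith), by field_simp; ring, ?_⟩
    apply Complex.ext
    · simp only [Complex.add_re, Complex.smul_re, Complex.neg_re, Complex.ofReal_re, smul_eq_mul]
      field_simp
      ring
    · simp only [Complex.add_im, Complex.smul_im, Complex.neg_im, Complex.ofReal_im, smul_eq_mul, h1]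
      simp

lemma inner_complex (z w : ℂ) : inner ℝ z w = z.re * w.re + z.im * w.im := by
  rw [Complex.inner]
  simp
  ring

lemma dI_mid {l : ℝ} (hl : 0 < l) {z : ℂ} (h : |z.re| ≤ l) : infDist z (seg l) = |z.im| := by
  have : IsNear (seg l) z (z.re : ℂ) := by
    apply isNear_of_inner ((mem_seg hl).2 ⟨by simp, by simpa using h⟩)
    intro w hw
    rw [inner_complex]
    simp [((mem_seg hl).1 hw).1]
  rw [this.infDist_eq, Complex.dist_of_re_eq (by simp)]
  simp

lemma dI_right {l : ℝ} (hl : 0 < l) {z : ℂ} (h : l ≤ z.re) : infDist z (seg l) = ‖z - l‖ := by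
  have : IsNear (seg l) z (l : ℂ) := by
    apply isNear_of_inner ((mem_seg hl).2 ⟨by simp, by simp [abs_of_pos hl]⟩)
    intro w hw
    rw [inner_complex]
    obtain ⟨h1, h2⟩ := (mem_seg hl).1 hw
    rw [abs_le] at h2
    simp only [Complex.sub_re, Complex.ofReal_re, Complex.sub_im, Complex.ofReal_im, h1]
    nlinarith
  rw [this.infDist_eq, dist_eq_norm]

lemma dI_neg {l : ℝ} (hl : 0 < l) (z : ℂ) : infDist (-z) (seg l) = infDist z (seg l) := by
  have e : (fun w : ℂ => -w) '' seg l = seg l := by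
    ext w
    constructor
    · rintro ⟨v, hv, rfl⟩
      rw [mem_seg hl] at hv ⊢
      simpa using hv
    · intro hw
      refine ⟨-w, ?_, neg_neg w⟩
      rw [mem_seg hl] at hw ⊢
      simpa using hw
  have := infDist_image (x := z) (t := seg l) (isometry_neg (G := ℂ))
  rw [← this]
  congr 1
  exact e.symm

lemma norm_le_slant {z : ℂ} {X ε : ℝ} (hε : 0 ≤ ε) (h1 : |z.re| ≤ X) (h2 : z.im ^ 2 ≤ 2 * X * ε) :
    ‖z‖ ≤ X + ε := by
  have hX : 0 ≤ X := le_trans (abs_nonneg _) h1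
  apply le_of_sq_le_sq₀' (by linarith)
  rw [Complex.sq_norm, Complex.normSq_apply]
  have : z.re ^ 2 ≤ X ^ 2 := by rw [← sq_abs]; exact pow_le_pow_left₀ (abs_nonneg _) h1 2
  nlinarith

lemma norm_le_of_sq {z : ℂ} {w : ℝ} (hw : 0 ≤ w) (h : z.re ^ 2 + z.im ^ 2 ≤ w ^ 2) : ‖z‖ ≤ w := by
  apply le_of_sq_le_sq₀' hw
  rw [Complex.sq_norm, Complex.normSq_apply]
  nlinarith

lemma drop {z w q : ℂ} {r : ℝ} (hz1 : q.im - r ≤ z.im) (hz2 : z.im ≤ q.im) (hw1 : q.im - r ≤ w.im)
    (hw2 : w.im ≤ q.im) (h1 : z.re ≤ q.re) (h2 : q.re ≤ w.re) :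
    ∃ p ∈ segment ℝ z w, dist q p ≤ r := by
  obtain ⟨p, hp, e⟩ := (convex_segment z w).isPreconnected.intermediate_value
    (left_mem_segment ℝ z w) (right_mem_segment ℝ z w) Complex.continuous_re.continuousOn ⟨h1, h2⟩
  refine ⟨p, hp, ?_⟩
  rw [Complex.dist_of_re_eq e.symm, Real.dist_eq]
  obtain ⟨α, β, hα, hβ, hs, rfl⟩ := hp
  simp only [Complex.add_im, Complex.smul_im, smul_eq_mul]
  have e1 : q.im = α * q.im + β * q.im := by rw [← add_mul, hs, one_mul]
  have e2 : r = α * r + β * r := by rw [← add_mul, hs, one_mul]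
  rw [abs_le]
  constructor <;> nlinarith

/-- The right semicircle of the inner parallel curve. -/
def arc (l ρ : ℝ) : Set ℂ := circleMap l ρ '' Icc (-(Real.pi / 2)) (Real.pi / 2)

lemma arc_finite (l ρ : ℝ) : Measure.hausdorffMeasure 1 (arc l ρ) ≠ ⊤ := by
  have := (lipschitzWith_circleMap (l : ℂ) ρ).hausdorffMeasure_image_le zero_le_one
    (Icc (-(Real.pi / 2)) (Real.pi / 2))
  refine ne_top_of_le_ne_top ?_ this
  rw [hausdorffMeasure_real, Real.volume_Icc]
  exact ENNReal.mul_ne_top (by simp) ENNReal.ofReal_ne_top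

lemma arc_prop {l ρ : ℝ} (hρ : 0 < ρ) {z : ℂ} (hz : z ∈ arc l ρ) : l ≤ z.re ∧ ‖z - l‖ = ρ := by
  obtain ⟨t, ht, rfl⟩ := hz
  constructor
  · have := Real.cos_nonneg_of_mem_Icc ht
    simp only [circleMap, Complex.add_re, Complex.ofReal_re, Complex.re_ofReal_mul,
      Complex.exp_ofReal_mul_I_re]
    nlinarith
  · rw [circleMap_sub_center, norm_circleMap_zero, abs_of_pos hρ]

lemma top_mem_arc (l ρ : ℝ) : (⟨l, ρ⟩ : ℂ) ∈ arc l ρ := by
  refine ⟨Real.pi / 2, ⟨by linarith [Real.pi_pos], le_rfl⟩, ?_⟩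
  apply Complex.ext
  · simp only [circleMap, Complex.add_re, Complex.ofReal_re, Complex.re_ofReal_mul,
      Complex.exp_ofReal_mul_I_re]
    simp
  · simp only [circleMap, Complex.add_im, Complex.ofReal_im, Complex.im_ofReal_mul,
      Complex.exp_ofReal_mul_I_im]
    simp

lemma bot_mem_arc (l ρ : ℝ) : (⟨l, -ρ⟩ : ℂ) ∈ arc l ρ := by
  refine ⟨-(Real.pi / 2), ⟨le_rfl, by linarith [Real.pi_pos]⟩, ?_⟩
  apply Complex.ext
  · simp only [circleMap, Complex.add_re, Complex.ofReal_re, Complex.re_ofReal_mul,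
      Complex.exp_ofReal_mul_I_re]
    simp
  · simp only [circleMap, Complex.add_im, Complex.ofReal_im, Complex.im_ofReal_mul,
      Complex.exp_ofReal_mul_I_im]
    simp

lemma arc_cover {l ρ r : ℝ} (hr : 0 < r) {q : ℂ} (h1 : l ≤ q.re) (h2 : ‖q - l‖ = ρ + r) :
    ∃ p ∈ arc l ρ, dist q p ≤ r := by
  have h3 : |Complex.arg (q - l)| ≤ Real.pi / 2 :=
    Complex.abs_arg_le_pi_div_two_iff.2 (by simpa using h1)
  refine ⟨circleMap l ρ (Complex.arg (q - l)), ⟨_, abs_le.1 h3, rfl⟩, le_of_eq ?_⟩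
  have h4 := Complex.norm_mul_exp_arg_mul_I (q - l)
  rw [h2] at h4
  have h5 : q - circleMap l ρ (Complex.arg (q - l)) =
      r * Complex.exp (Complex.arg (q - l) * Complex.I) := by
    rw [circleMap]
    push_cast at h4
    linear_combination -h4
  rw [dist_eq_norm, h5, norm_mul, Complex.norm_exp_ofReal_mul_I, mul_one, Complex.norm_real,
    Real.norm_of_nonneg hr.le]

lemma meas_neg (A : Set ℂ) :
    Measure.hausdorffMeasure 1 ((fun w : ℂ => -w) '' A) = Measure.hausdorffMeasure 1 A :=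
  (isometry_neg (G := ℂ)).hausdorffMeasure_image (Or.inl zero_le_one) A

lemma inner_curve_lower {l ρ : ℝ} (hl : 0 < l) (hρ : 0 < ρ) :
    (Measure.hausdorffMeasure 1 (arc l ρ) + ENNReal.ofReal (2 * l)) +
      (Measure.hausdorffMeasure 1 (arc l ρ) + ENNReal.ofReal (2 * l)) ≤
      Measure.hausdorffMeasure 1 {m : ℂ | infDist m (seg l) = ρ} := by
  set μ : Measure ℂ := Measure.hausdorffMeasure 1 with hμ
  set top : Set ℂ := (fun x : ℝ => (⟨x, ρ⟩ : ℂ)) '' Ioo (-l) l with htop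
  have hiso : Isometry (fun x : ℝ => (⟨x, ρ⟩ : ℂ)) :=
    Isometry.of_dist_eq (fun x y => Complex.dist_of_im_eq rfl)
  have hμtop : μ top = ENNReal.ofReal (2 * l) := by
    rw [hμ, htop, hiso.hausdorffMeasure_image (Or.inl zero_le_one), hausdorffMeasure_real,
      Real.volume_Ioo]
    congr 1
    ring
  have htp : ∀ z ∈ top, |z.re| < l ∧ z.im = ρ := by
    rintro _ ⟨x, hx, rfl⟩
    exact ⟨abs_lt.2 hx, rfl⟩
  have m1 : MeasurableSet {z : ℂ | l ≤ z.re} :=
    (isClosed_le continuous_const Complex.continuous_re).measurableSet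
  have m2 : MeasurableSet {z : ℂ | -l < z.re ∧ 0 < z.im} :=
    ((isOpen_lt continuous_const Complex.continuous_re).inter
      (isOpen_lt continuous_const Complex.continuous_im)).measurableSet
  have h1 : μ (arc l ρ) + ENNReal.ofReal (2 * l) ≤ μ (arc l ρ ∪ top) := by
    rw [← measure_inter_add_sdiff (arc l ρ ∪ top) m1, ← hμtop]
    refine add_le_add (measure_mono fun z hz => ⟨Or.inl hz, (arc_prop hρ hz).1⟩)
      (measure_mono fun z hz => ⟨Or.inr hz, fun h => ?_⟩)
    have := (abs_lt.1 (htp z hz).1).2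
    exact absurd h (not_le.2 this)
  have hN : ∀ z ∈ arc l ρ ∪ top, infDist z (seg l) = ρ := by
    rintro z (hz | hz)
    · rw [dI_right hl (arc_prop hρ hz).1, (arc_prop hρ hz).2]
    · rw [dI_mid hl (htp z hz).1.le, (htp z hz).2, abs_of_pos hρ]
  rw [← measure_inter_add_sdiff {m : ℂ | infDist m (seg l) = ρ} (m1.union m2)]
  refine add_le_add (le_trans h1 (measure_mono fun z hz => ⟨hN z hz, ?_⟩))
    (le_trans h1 (le_trans (le_of_eq (meas_neg _).symm) (measure_mono ?_)))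
  · rcases hz with hz | hz
    · exact Or.inl (arc_prop hρ hz).1
    · exact Or.inr ⟨(abs_lt.1 (htp z hz).1).1, (htp z hz).2 ▸ hρ⟩
  · rintro _ ⟨z, hz, rfl⟩
    refine ⟨(dI_neg hl z).trans (hN z hz), ?_⟩
    simp only [mem_union, mem_ofPred_eq, Complex.neg_re, Complex.neg_im, not_or, not_le, not_and,
      not_lt]
    rcases hz with hz | hz
    · have := (arc_prop hρ hz).1
      exact ⟨by linarith, fun h => by linarith⟩
    · have h2 := abs_lt.1 (htp z hz).1
      have h3 := (htp z hz).2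
      exact ⟨by linarith, fun _ => by linarith⟩

/-- One half of the competitor. -/
def half (l ρ r a s σ : ℝ) : Set ℂ :=
  segment ℝ 0 ⟨0, σ⟩ ∪ segment ℝ ⟨0, σ⟩ ⟨-a, ρ + r - s⟩ ∪
    segment ℝ ⟨-l / 2 + r, ρ + r⟩ ⟨-a, ρ + r - s⟩ ∪ segment ℝ ⟨0, σ⟩ ⟨a, ρ + r - s⟩ ∪
    segment ℝ ⟨a, ρ + r - s⟩ ⟨l, ρ⟩ ∪ arc l ρ ∪ segment ℝ ⟨l, -ρ⟩ ⟨l / 2 + r, -(ρ + r)⟩

lemma seg_conn (z w : ℂ) : IsConnected (segment ℝ z w) :=
  (convex_segment z w).isConnected ⟨z, left_mem_segment ℝ z w⟩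

lemma seg_compact {E : Type} [NormedAddCommGroup E] [NormedSpace ℝ E] (z w : E) :
    IsCompact (segment ℝ z w) := by
  rw [segment_eq_image]
  exact isCompact_Icc.image (by fun_prop)

lemma half_compact (l ρ r a s σ : ℝ) : IsCompact (half l ρ r a s σ) :=
  ((((((seg_compact _ _).union (seg_compact _ _)).union (seg_compact _ _)).union
    (seg_compact _ _)).union (seg_compact _ _)).union
    (isCompact_Icc.image (continuous_circleMap _ _))).union (seg_compact _ _)

lemma half_conn (l ρ r a s σ : ℝ) : IsConnected (half l ρ r a s σ) := by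
  have harc : IsConnected (arc l ρ) :=
    (isConnected_Icc (by linarith [Real.pi_pos])).image _ (continuous_circleMap _ _).continuousOn
  refine IsConnected.union ⟨_, Or.inr (bot_mem_arc l ρ), left_mem_segment ℝ _ _⟩ ?_ (seg_conn _ _)
  refine IsConnected.union ⟨_, Or.inr (right_mem_segment ℝ _ _), top_mem_arc l ρ⟩ ?_ harc
  refine IsConnected.union ⟨_, Or.inr (right_mem_segment ℝ _ _), left_mem_segment ℝ _ _⟩ ?_
    (seg_conn _ _)
  refine IsConnected.union ⟨_, Or.inl (Or.inl (right_mem_segment ℝ _ _)), left_mem_segment ℝ _ _⟩ ?_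
    (seg_conn _ _)
  refine IsConnected.union ⟨_, Or.inr (right_mem_segment ℝ _ _), right_mem_segment ℝ _ _⟩ ?_
    (seg_conn _ _)
  exact IsConnected.union ⟨_, right_mem_segment ℝ _ _, left_mem_segment ℝ _ _⟩ (seg_conn _ _)
    (seg_conn _ _)

lemma seg_meas {z w : ℂ} {c : ℝ} (h : ‖z - w‖ ≤ c) :
    Measure.hausdorffMeasure 1 (segment ℝ z w) ≤ ENNReal.ofReal c := by
  rw [hausdorffMeasure_segment, edist_dist, dist_eq_norm]
  exact ENNReal.ofReal_le_ofReal h

lemma half_meas {l ρ r a s σ w ε : ℝ} (hr : 0 < r) (ha : 0 ≤ a) (hs : 0 ≤ s)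
    (has : a ^ 2 + s ^ 2 ≤ r ^ 2) (hw : 0 ≤ w) (haw : a ^ 2 + (ρ + r - s - σ) ^ 2 ≤ w ^ 2)
    (hε : 0 < ε) (hl1 : 8 * r ≤ l) (hl2 : 2 * r ^ 2 ≤ l * ε) :
    Measure.hausdorffMeasure 1 (half l ρ r a s σ) ≤ Measure.hausdorffMeasure 1 (arc l ρ) +
      ENNReal.ofReal (|σ| + 2 * w - 2 * a + 3 * ε + 2 * l - 2 * r) := by
  have har : a ≤ r := le_of_sq_le_sq₀' hr.le (by nlinarith)
  have hsr : s ≤ r := le_of_sq_le_sq₀' hr.le (by nlinarith)
  have h1 : Measure.hausdorffMeasure 1 (segment ℝ (0 : ℂ) ⟨0, σ⟩) ≤ ENNReal.ofReal |σ| :=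
    seg_meas (norm_le_of_sq (abs_nonneg _) (by simp))
  have h2 : Measure.hausdorffMeasure 1 (segment ℝ (⟨0, σ⟩ : ℂ) ⟨-a, ρ + r - s⟩) ≤
      ENNReal.ofReal w :=
    seg_meas (norm_le_of_sq hw (by simp only [Complex.sub_re, Complex.sub_im]; nlinarith))
  have h3 : Measure.hausdorffMeasure 1 (segment ℝ (⟨-l / 2 + r, ρ + r⟩ : ℂ) ⟨-a, ρ + r - s⟩) ≤
      ENNReal.ofReal (l / 2 - r - a + ε) :=
    seg_meas (norm_le_slant hε.le (by
      simp only [Complex.sub_re]; rw [abs_le]; constructor <;> linarith) (by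
      simp only [Complex.sub_im]; nlinarith))
  have h4 : Measure.hausdorffMeasure 1 (segment ℝ (⟨0, σ⟩ : ℂ) ⟨a, ρ + r - s⟩) ≤
      ENNReal.ofReal w :=
    seg_meas (norm_le_of_sq hw (by simp only [Complex.sub_re, Complex.sub_im]; nlinarith))
  have h5 : Measure.hausdorffMeasure 1 (segment ℝ (⟨a, ρ + r - s⟩ : ℂ) ⟨l, ρ⟩) ≤
      ENNReal.ofReal (l - a + ε) :=
    seg_meas (norm_le_slant hε.le (by
      simp only [Complex.sub_re]; rw [abs_le]; constructor <;> linarith) (by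
      simp only [Complex.sub_im]; nlinarith))
  have h6 : Measure.hausdorffMeasure 1 (segment ℝ (⟨l, -ρ⟩ : ℂ) ⟨l / 2 + r, -(ρ + r)⟩) ≤
      ENNReal.ofReal (l / 2 - r + ε) :=
    seg_meas (norm_le_slant hε.le (by
      simp only [Complex.sub_re]; rw [abs_le]; constructor <;> linarith) (by
      simp only [Complex.sub_im]; nlinarith))
  have e : ENNReal.ofReal (|σ| + 2 * w - 2 * a + 3 * ε + 2 * l - 2 * r) =
      ENNReal.ofReal |σ| + ENNReal.ofReal w + ENNReal.ofReal (l / 2 - r - a + ε) +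
        ENNReal.ofReal w + ENNReal.ofReal (l - a + ε) + ENNReal.ofReal (l / 2 - r + ε) := by
    have := abs_nonneg σ
    rw [← ENNReal.ofReal_add (by linarith) (by linarith),
      ← ENNReal.ofReal_add (by linarith) (by linarith),
      ← ENNReal.ofReal_add (by linarith) (by linarith),
      ← ENNReal.ofReal_add (by linarith) (by linarith),
      ← ENNReal.ofReal_add (by linarith) (by linarith)]
    congr 1
    ring
  rw [e]
  calc Measure.hausdorffMeasure 1 (half l ρ r a s σ)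
      ≤ ENNReal.ofReal |σ| + ENNReal.ofReal w + ENNReal.ofReal (l / 2 - r - a + ε) +
        ENNReal.ofReal w + ENNReal.ofReal (l - a + ε) + Measure.hausdorffMeasure 1 (arc l ρ) +
        ENNReal.ofReal (l / 2 - r + ε) := by
        refine le_trans (measure_union_le _ _) (add_le_add ?_ h6)
        refine le_trans (measure_union_le _ _) (add_le_add ?_ le_rfl)
        refine le_trans (measure_union_le _ _) (add_le_add ?_ h5)
        refine le_trans (measure_union_le _ _) (add_le_add ?_ h4)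
        refine le_trans (measure_union_le _ _) (add_le_add ?_ h3)
        exact le_trans (measure_union_le _ _) (add_le_add h1 h2)
    _ = _ := by ring

lemma half_cover {l ρ r a s σ : ℝ} (hr : 0 < r) (ha : 0 ≤ a) (hs : 0 ≤ s)
    (has : a ^ 2 + s ^ 2 ≤ r ^ 2) {q : ℂ} (hq1 : |q.re| ≤ l) (hq2 : q.im = ρ + r) :
    ∃ p ∈ half l ρ r a s σ ∪ (fun w : ℂ => -w) '' half l ρ r a s σ, dist q p ≤ r := by
  have hsr : s ≤ r := le_of_sq_le_sq₀' hr.le (by nlinarith)
  rw [abs_le] at hq1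
  have hE1 : (fun w : ℂ => -w) '' segment ℝ (⟨l, -ρ⟩ : ℂ) ⟨l / 2 + r, -(ρ + r)⟩ =
      segment ℝ (⟨-l, ρ⟩ : ℂ) ⟨-(l / 2 + r), ρ + r⟩ := by
    have := image_segment ℝ ((-LinearMap.id : ℂ →ₗ[ℝ] ℂ).toAffineMap) (⟨l, -ρ⟩ : ℂ)
      ⟨l / 2 + r, -(ρ + r)⟩
    simp only [LinearMap.coe_toAffineMap, LinearMap.neg_apply, LinearMap.id_coe, id_eq] at this
    have e1 : (⟨-l, ρ⟩ : ℂ) = -⟨l, -ρ⟩ := by apply Complex.ext <;> simp
    have e2 : (⟨-(l / 2 + r), ρ + r⟩ : ℂ) = -⟨l / 2 + r, -(ρ + r)⟩ := by apply Complex.ext <;> simp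
    rw [e1, e2]
    exact this
  have hsub : segment ℝ (⟨-l, ρ⟩ : ℂ) ⟨-(l / 2 + r), ρ + r⟩ ⊆
      half l ρ r a s σ ∪ (fun w : ℂ => -w) '' half l ρ r a s σ := by
    rw [← hE1]
    exact subset_union_of_subset_right (image_mono subset_union_right) _
  rcases le_total q.re (-(l / 2 + r)) with c1 | c1
  · obtain ⟨p, hp, hd⟩ := drop (z := ⟨-l, ρ⟩) (w := ⟨-(l / 2 + r), ρ + r⟩) (q := q) (r := r)
      (by simp only; linarith) (by simp only; linarith) (by simp only; linarith)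
      (by simp only; linarith) hq1.1 c1
    exact ⟨p, hsub hp, hd⟩
  rcases le_total q.re (-l / 2) with c2 | c2
  · refine ⟨_, hsub (right_mem_segment ℝ _ _), ?_⟩
    rw [Complex.dist_of_im_eq hq2, Real.dist_eq, abs_le]
    constructor <;> simp only <;> linarith
  rcases le_total q.re (-l / 2 + r) with c3 | c3
  · refine ⟨_, Or.inl (Or.inl (Or.inl (Or.inl (Or.inl (Or.inr (left_mem_segment ℝ _ _)))))), ?_⟩
    rw [Complex.dist_of_im_eq hq2, Real.dist_eq, abs_le]
    constructor <;> simp only <;> linarith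
  rcases le_total q.re (-a) with c4 | c4
  · obtain ⟨p, hp, hd⟩ := drop (z := ⟨-l / 2 + r, ρ + r⟩) (w := ⟨-a, ρ + r - s⟩) (q := q) (r := r)
      (by simp only; linarith) (by simp only; linarith) (by simp only; linarith)
      (by simp only; linarith) c3 c4
    exact ⟨p, Or.inl (Or.inl (Or.inl (Or.inl (Or.inl (Or.inr hp))))), hd⟩
  rcases le_total q.re 0 with c5 | c5
  · refine ⟨_, Or.inl (Or.inl (Or.inl (Or.inl (Or.inl (Or.inr (right_mem_segment ℝ _ _)))))), ?_⟩
    rw [dist_eq_norm]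
    apply norm_le_of_sq hr.le
    simp only [Complex.sub_re, Complex.sub_im, hq2]
    nlinarith
  rcases le_total q.re a with c6 | c6
  · refine ⟨_, Or.inl (Or.inl (Or.inl (Or.inr (left_mem_segment ℝ _ _)))), ?_⟩
    rw [dist_eq_norm]
    apply norm_le_of_sq hr.le
    simp only [Complex.sub_re, Complex.sub_im, hq2]
    nlinarith
  · obtain ⟨p, hp, hd⟩ := drop (z := ⟨a, ρ + r - s⟩) (w := ⟨l, ρ⟩) (q := q) (r := r)
      (by simp only; linarith) (by simp only; linarith) (by simp only; linarith)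
      (by simp only; linarith) c6 hq1.2
    exact ⟨p, Or.inl (Or.inl (Or.inl (Or.inr hp))), hd⟩

lemma competitor {l ρ r a s σ w ε : ℝ} (hρ : 0 < ρ) (hr : 0 < r) (ha : 0 ≤ a) (hs : 0 ≤ s)
    (has : a ^ 2 + s ^ 2 ≤ r ^ 2) (hw : 0 ≤ w) (haw : a ^ 2 + (ρ + r - s - σ) ^ 2 ≤ w ^ 2)
    (hε : 0 < ε) (hl1 : 8 * r ≤ l) (hl2 : 2 * r ^ 2 ≤ l * ε)
    (hgain : |σ| + 2 * w - 2 * a + 3 * ε < r) :
    ∃ T : Set ℂ, IsCompact T ∧ IsConnected T ∧
      (∀ q, infDist q (seg l) = ρ + r → q ∈ cthickening r T) ∧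
      Measure.hausdorffMeasure 1 T + (ENNReal.ofReal r + ENNReal.ofReal r) <
        Measure.hausdorffMeasure 1 {m : ℂ | infDist m (seg l) = ρ} := by
  have hl : 0 < l := by linarith
  set H := half l ρ r a s σ with hH
  have h0 : (0 : ℂ) ∈ H :=
    Or.inl (Or.inl (Or.inl (Or.inl (Or.inl (Or.inl (left_mem_segment ℝ _ _))))))
  refine ⟨H ∪ (fun w : ℂ => -w) '' H,
    (half_compact ..).union ((half_compact ..).image continuous_neg),
    IsConnected.union ⟨0, h0, 0, h0, neg_zero⟩ (half_conn ..)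
      ((half_conn ..).image _ continuous_neg.continuousOn), ?_, ?_⟩
  · have hsym : ∀ q : ℂ, (∃ p ∈ H ∪ (fun w : ℂ => -w) '' H, dist (-q) p ≤ r) →
        ∃ p ∈ H ∪ (fun w : ℂ => -w) '' H, dist q p ≤ r := by
      rintro q ⟨p, hp, hd⟩
      refine ⟨-p, ?_, by rwa [← dist_neg_neg, neg_neg]⟩
      rcases hp with hp | ⟨v, hv, rfl⟩
      · exact Or.inr ⟨p, hp, rfl⟩
      · exact Or.inl (by simpa using hv)
    have hright : ∀ q : ℂ, l ≤ q.re → infDist q (seg l) = ρ + r →
        ∃ p ∈ H ∪ (fun w : ℂ => -w) '' H, dist q p ≤ r := by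
      intro q h1 h2
      rw [dI_right hl h1] at h2
      obtain ⟨p, hp, hd⟩ := arc_cover hr h1 h2
      exact ⟨p, Or.inl (Or.inl (Or.inr hp)), hd⟩
    intro q hq
    suffices h : ∃ p ∈ H ∪ (fun w : ℂ => -w) '' H, dist q p ≤ r by
      obtain ⟨p, hp, hd⟩ := h
      exact mem_cthickening_of_dist_le q p r _ hp hd
    rcases le_total l q.re with c1 | c1
    · exact hright q c1 hq
    rcases le_total q.re (-l) with c2 | c2
    · exact hsym q (hright (-q) (by rw [Complex.neg_re]; linarith) ((dI_neg hl q).trans hq))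
    have hm : |q.re| ≤ l := abs_le.2 ⟨c2, c1⟩
    rw [dI_mid hl hm] at hq
    rcases le_total 0 q.im with c3 | c3
    · rw [abs_of_nonneg c3] at hq
      exact half_cover hr ha hs has hm hq
    · rw [abs_of_nonpos c3] at hq
      exact hsym q (half_cover hr ha hs has (by simpa using hm) (by simpa using hq))
  · have h1 := half_meas (ρ := ρ) (σ := σ) hr ha hs has hw haw hε hl1 hl2
    have h2 := inner_curve_lower hl hρ
    have hfin := arc_finite l ρ
    set B := Measure.hausdorffMeasure 1 (arc l ρ) with hB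
    set U := |σ| + 2 * w - 2 * a + 3 * ε + 2 * l - 2 * r with hU
    have har : a ≤ r := le_of_sq_le_sq₀' hr.le (by nlinarith)
    have hU0 : 0 ≤ U := by have := abs_nonneg σ; linarith
    have h3 : B + ENNReal.ofReal U + ENNReal.ofReal r < B + ENNReal.ofReal (2 * l) := by
      rw [add_assoc, ← ENNReal.ofReal_add hU0 hr.le]
      exact ENNReal.add_lt_add_left hfin ((ENNReal.ofReal_lt_ofReal_iff (by linarith)).2
        (by linarith))
    calc Measure.hausdorffMeasure 1 (H ∪ (fun w : ℂ => -w) '' H) +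
          (ENNReal.ofReal r + ENNReal.ofReal r)
        ≤ ((B + ENNReal.ofReal U) + (B + ENNReal.ofReal U)) +
          (ENNReal.ofReal r + ENNReal.ofReal r) := by
          refine add_le_add (le_trans (measure_union_le _ _) (add_le_add h1 ?_)) le_rfl
          rw [meas_neg]
          exact h1
      _ = (B + ENNReal.ofReal U + ENNReal.ofReal r) + (B + ENNReal.ofReal U + ENNReal.ofReal r) := by
          ring
      _ < _ := ENNReal.add_lt_add h3 h3
      _ ≤ _ := h2

end Pool.Agent.Lib.MP_4b56aa_gt
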