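import Mathlib

/-! Definitions for MP_4b56aa_gt: maximal distance minimizers, stadia and horseshoes. -/

namespace Pool.Agent.Lib.MP_4b56aa_gt

open Set Metric MeasureTheory

/-- The Euclidean plane. -/
abbrev Plane := EuclideanSpace ℝ (Fin 2)

/-- `S` is a connected compact set whose closed `r`-neighbourhood contains `M`. -/
def Admissible (r : ℝ) (M S : Set Plane) : Prop :=
  IsCompact S ∧ IsConnected S ∧ M ⊆ cthickening r S

/-- `S` is an `r`-minimizer (maximal distance minimizer) for `M`: it is admissible and has the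
least one-dimensional Hausdorff measure among the admissible sets. -/
def IsMinimizer (r : ℝ) (M S : Set Plane) : Prop :=
  Admissible r M S ∧
    ∀ T : Set Plane, Admissible r M T →
      Measure.hausdorffMeasure 1 S ≤ Measure.hausdorffMeasure 1 T

/-- The `R`-stadium around the segment `[a, b]`: the boundary of its closed `R`-neighbourhood. -/
def stadium (R : ℝ) (a b : Plane) : Set Plane :=
  frontier (cthickening R (segment ℝ a b))

/-- `H` is a horseshoe for the `R`-stadium around `[a, b]`: the union of an arc
`γ = g '' [0, 1]` of `M_r` (the `(R - r)`-stadium around `[a, b]`), a segment from the endpoint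
`g 0` to a point `p` of the tangent line to `γ` at `g 0`, and a segment from the endpoint `g 1`
to a point `q` of the tangent line to `γ` at `g 1`. -/
def IsHorseshoe (r R : ℝ) (a b : Plane) (H : Set Plane) : Prop :=
  ∃ (g : ℝ → Plane) (p q : Plane),
    ContinuousOn g (Icc 0 1) ∧ InjOn g (Icc 0 1) ∧ g '' Icc 0 1 ⊆ stadium (R - r) a b ∧
    p - g 0 ∈ tangentConeAt ℝ (g '' Icc 0 1) (g 0) ∧
    q - g 1 ∈ tangentConeAt ℝ (g '' Icc 0 1) (g 1) ∧
    H = g '' Icc 0 1 ∪ segment ℝ (g 0) p ∪ segment ℝ (g 1) q

end Pool.Agent.Lib.MP_4b56aa_gt
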