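import Mathlib

/-! Nearest points in convex sets, parallel bodies and their tangent lines. -/

namespace Pool.Agent.Lib.MP_4b56aa_gt

open Set Metric Filter Topology

variable {E : Type} [NormedAddCommGroup E] [InnerProductSpace ℝ E]

/-- `y` is a point of `K` nearest to `x`. -/
def IsNear (K : Set E) (x y : E) : Prop := y ∈ K ∧ ∀ z ∈ K, dist x y ≤ dist x z

lemma IsNear.inner_le {K : Set E} (hK : Convex ℝ K) {x y : E} (h : IsNear K x y) :
    ∀ z ∈ K, inner ℝ (x - y) (z - y) ≤ 0 := by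
  have : Nonempty K := ⟨⟨y, h.1⟩⟩
  apply (norm_eq_iInf_iff_real_inner_le_zero hK h.1).1
  apply le_antisymm
  · apply le_ciInf
    intro w
    have := h.2 w w.2
    rwa [dist_eq_norm, dist_eq_norm] at this
  · exact ciInf_le (f := fun w : K => ‖x - w‖) ⟨0, by rintro _ ⟨w, rfl⟩; exact norm_nonneg _⟩
      ⟨y, h.1⟩

lemma le_of_sq_le_sq₀' {a b : ℝ} (hb : 0 ≤ b) (h : a ^ 2 ≤ b ^ 2) : a ≤ b :=
  (abs_le_of_sq_le_sq' h hb).2

lemma isNear_of_inner {K : Set E} {x y : E} (hy : y ∈ K)
    (h : ∀ z ∈ K, inner ℝ (x - y) (z - y) ≤ 0) : IsNear K x y := by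
  refine ⟨hy, fun z hz => ?_⟩
  rw [dist_eq_norm, dist_eq_norm]
  have e : x - z = (x - y) - (z - y) := by abel
  have h1 : ‖x - z‖ ^ 2 = ‖x - y‖ ^ 2 - 2 * inner ℝ (x - y) (z - y) + ‖z - y‖ ^ 2 := by
    rw [e, norm_sub_sq_real]
  have h2 := h z hz
  apply le_of_sq_le_sq₀' (norm_nonneg _)
  nlinarith [sq_nonneg ‖z - y‖]

lemma IsNear.lip {K : Set E} (hK : Convex ℝ K) {x y x' y' : E} (h : IsNear K x y)
    (h' : IsNear K x' y') : dist y y' ≤ dist x x' := by
  have h1 := h.inner_le hK y' h'.1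
  have h2 := h'.inner_le hK y h.1
  rw [dist_eq_norm, dist_eq_norm]
  have e : inner ℝ (x - x') (y - y') =
      ‖y - y'‖ ^ 2 - inner ℝ (x - y) (y' - y) - inner ℝ (x' - y') (y - y') := by
    rw [← real_inner_self_eq_norm_sq]
    simp only [inner_sub_left, inner_sub_right]
    ring
  have h3 : inner ℝ (x - x') (y - y') ≤ ‖x - x'‖ * ‖y - y'‖ := real_inner_le_norm _ _
  by_contra hc
  push Not at hc
  have h4 : 0 < ‖y - y'‖ := lt_of_le_of_lt (norm_nonneg _) hc
  nlinarith

lemma IsNear.infDist_eq {K : Set E} {x y : E} (h : IsNear K x y) : infDist x K = dist x y := by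
  apply le_antisymm (infDist_le_dist_of_mem h.1)
  exact (le_infDist ⟨y, h.1⟩).2 (fun z hz => h.2 z hz)

lemma exists_isNear {K : Set E} (hK : IsCompact K) (hne : K.Nonempty) (x : E) :
    ∃ y, IsNear K x y := by
  obtain ⟨y, hy, h⟩ := hK.exists_infDist_eq_dist hne x
  exact ⟨y, hy, fun z hz => h ▸ infDist_le_dist_of_mem hz⟩

lemma IsNear.ray {K : Set E} (hK : Convex ℝ K) {x y : E} (h : IsNear K x y) {t : ℝ}
    (ht : 0 ≤ t) : IsNear K (y + t • (x - y)) y := by
  apply isNear_of_inner h.1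
  intro z hz
  rw [add_sub_cancel_left, real_inner_smul_left]
  exact mul_nonpos_of_nonneg_of_nonpos ht (h.inner_le hK z hz)

lemma IsNear.infDist_ray {K : Set E} (hK : Convex ℝ K) {x y : E} (h : IsNear K x y) {t : ℝ}
    (ht : 0 ≤ t) : infDist (y + t • (x - y)) K = t * dist x y := by
  rw [(h.ray hK ht).infDist_eq, dist_eq_norm, add_sub_cancel_left, norm_smul, dist_eq_norm,
    Real.norm_of_nonneg ht]

lemma mem_cth {I : Set E} (hne : I.Nonempty) {δ : ℝ} (hδ : 0 ≤ δ) {x : E} :
    x ∈ cthickening δ I ↔ infDist x I ≤ δ := by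
  rw [mem_cthickening_iff, infDist, ENNReal.le_ofReal_iff_toReal_le (infEDist_ne_top hne) hδ]

lemma mem_frontier_cth {I : Set E} (hI : IsCompact I) (hc : Convex ℝ I) (hne : I.Nonempty)
    {δ : ℝ} (hδ : 0 < δ) {x : E} : x ∈ frontier (cthickening δ I) ↔ infDist x I = δ := by
  constructor
  · intro h
    have := frontier_cthickening_subset I h
    simp only [mem_ofPred_eq] at this
    rw [infDist, this, ENNReal.toReal_ofReal hδ.le]
  · intro h
    rw [isClosed_cthickening.frontier_eq]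
    refine ⟨(mem_cth hne hδ.le).2 h.le, fun hint => ?_⟩
    obtain ⟨ε, hε, hb⟩ := Metric.mem_nhds_iff.1 (mem_interior_iff_mem_nhds.1 hint)
    obtain ⟨p, hp⟩ := exists_isNear hI hne x
    have hd : dist x p = δ := by rw [← hp.infDist_eq, h]
    have ht : 0 < ε / (2 * δ) := by positivity
    have h1 : p + (1 + ε / (2 * δ)) • (x - p) ∈ ball x ε := by
      rw [mem_ball, dist_eq_norm]
      have : p + (1 + ε / (2 * δ)) • (x - p) - x = (ε / (2 * δ)) • (x - p) := by
        rw [add_smul, one_smul]; abel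
      rw [this, norm_smul, Real.norm_of_nonneg ht.le, ← dist_eq_norm, hd]
      have : ε / (2 * δ) * δ = ε / 2 := by field_simp
      rw [this]; linarith
    have h2 := (mem_cth hne hδ.le).1 (hb h1)
    rw [hp.infDist_ray hc (by linarith), hd] at h2
    nlinarith

/-- A nearest point of the parallel body to a point outside its interior lies on its boundary. -/
lemma infDist_near_cth {I : Set E} (hI : IsCompact I) (hc : Convex ℝ I) (hne : I.Nonempty)
    {ρ : ℝ} (hρ : 0 < ρ) {x y : E} (hx : ρ ≤ infDist x I) (h : IsNear (cthickening ρ I) x y) :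
    infDist y I = ρ := by
  apply le_antisymm ((mem_cth hne hρ.le).1 h.1)
  obtain ⟨p, hp⟩ := exists_isNear hI hne x
  have hd := hp.infDist_eq
  have hpos : 0 < dist x p := by rw [← hd]; linarith
  have ht : 0 ≤ ρ / dist x p := by positivity
  have h1 : p + (ρ / dist x p) • (x - p) ∈ cthickening ρ I := by
    rw [mem_cth hne hρ.le, hp.infDist_ray hc ht]
    exact le_of_eq (by field_simp)
  have h2 := h.2 _ h1
  have h3 : dist x (p + (ρ / dist x p) • (x - p)) = dist x p - ρ := by
    rw [dist_eq_norm x (p + _)]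
    have : x - (p + (ρ / dist x p) • (x - p)) = (1 - ρ / dist x p) • (x - p) := by
      rw [sub_smul, one_smul]; abel
    rw [this, norm_smul, Real.norm_of_nonneg, ← dist_eq_norm]
    · field_simp
    · rw [sub_nonneg, div_le_one hpos]; linarith
  have h4 : infDist x I ≤ infDist y I + dist x y := infDist_le_infDist_add_dist
  linarith

/-- Every boundary point of the inner parallel body is the nearest point of a boundary point of
the outer one. -/
lemma exists_outer {I : Set E} (hI : IsCompact I) (hc : Convex ℝ I) (hne : I.Nonempty)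
    {ρ r : ℝ} (hρ : 0 < ρ) (hr : 0 < r) {m : E} (hm : infDist m I = ρ) :
    ∃ q, infDist q I = ρ + r ∧ IsNear (cthickening ρ I) q m := by
  obtain ⟨p, hp⟩ := exists_isNear hI hne m
  have hd : dist m p = ρ := by rw [← hp.infDist_eq, hm]
  have ht : 0 ≤ (ρ + r) / ρ := by positivity
  have h1 : infDist (p + ((ρ + r) / ρ) • (m - p)) I = ρ + r := by
    rw [hp.infDist_ray hc ht, hd]; field_simp
  refine ⟨_, h1, (mem_cth hne hρ.le).2 hm.le, fun z hz => ?_⟩
  have h2 := (mem_cth hne hρ.le).1 hz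
  have h3 : dist (p + ((ρ + r) / ρ) • (m - p)) m = r := by
    rw [dist_eq_norm]
    have : p + ((ρ + r) / ρ) • (m - p) - m = (r / ρ) • (m - p) := by
      rw [add_div, div_self hρ.ne', add_smul, one_smul]; abel
    rw [this, norm_smul, Real.norm_of_nonneg (by positivity), ← dist_eq_norm, hd]
    field_simp
  have h4 : infDist (p + ((ρ + r) / ρ) • (m - p)) I ≤
      infDist z I + dist (p + ((ρ + r) / ρ) • (m - p)) z := infDist_le_infDist_add_dist
  linarith

/-- Tangent lines of a subset of the boundary of a parallel body avoid its interior. -/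
lemma tangent_outside {I : Set E} (hI : IsCompact I) (hc : Convex ℝ I) (hne : I.Nonempty)
    {ρ : ℝ} (hρ : 0 < ρ) {G : Set E} (hG : ∀ x ∈ G, infDist x I = ρ) {m v : E}
    (hm : infDist m I = ρ) (hv : v ∈ tangentConeAt ℝ G m) (t : ℝ) :
    ρ ≤ infDist (m + t • v) I := by
  obtain ⟨p, hp⟩ := exists_isNear hI hne m
  have hd : ‖m - p‖ = ρ := by rw [← dist_eq_norm, ← hp.infDist_eq, hm]
  have hin := hp.inner_le hc
  have hlow : ∀ x : E, inner ℝ (m - p) (x - p) ≤ ρ * infDist x I := by
    intro x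
    obtain ⟨y, hy⟩ := exists_isNear hI hne x
    rw [hy.infDist_eq, dist_eq_norm]
    have e : x - p = (x - y) + (y - p) := by abel
    rw [e, inner_add_right]
    have h1 := hin y hy.1
    have h2 : inner ℝ (m - p) (x - y) ≤ ‖m - p‖ * ‖x - y‖ := real_inner_le_norm _ _
    rw [hd] at h2
    linarith
  have hself : inner ℝ (m - p) (m - p) = ρ ^ 2 := by rw [real_inner_self_eq_norm_sq, hd]
  have key : ∀ d : E, m + d ∈ G → |inner ℝ (m - p) d| ≤ ‖d‖ ^ 2 / 2 := by
    intro d hdG
    have h1 := hlow (m + d)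
    rw [hG _ hdG] at h1
    have e : m + d - p = (m - p) + d := by abel
    rw [e, inner_add_right, hself] at h1
    have h2 : infDist (m + d) I ≤ dist (m + d) p := infDist_le_dist_of_mem hp.1
    rw [hG _ hdG, dist_eq_norm, e] at h2
    have h3 : ‖(m - p) + d‖ ^ 2 = ‖m - p‖ ^ 2 + 2 * inner ℝ (m - p) d + ‖d‖ ^ 2 :=
      norm_add_sq_real _ _
    rw [hd] at h3
    have h4 : ρ ^ 2 ≤ ‖(m - p) + d‖ ^ 2 := by nlinarith
    rw [abs_le]
    constructor <;> nlinarith [sq_nonneg ‖d‖]
  have hv0 : inner ℝ (m - p) v = 0 := by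
    obtain ⟨α, l, hl, c, d, hd0, hdG, hcd⟩ := exists_fun_of_mem_tangentConeAt hv
    have t1 : Tendsto (fun n => |inner ℝ (m - p) (c n • d n)|) l (𝓝 |inner ℝ (m - p) v|) :=
      (tendsto_const_nhds.inner (𝕜 := ℝ) hcd).abs
    have t2 : Tendsto (fun n => ‖c n • d n‖ * ‖d n‖ / 2) l (𝓝 (‖v‖ * ‖(0 : E)‖ / 2)) :=
      (hcd.norm.mul hd0.norm).div_const 2
    have h5 := le_of_tendsto_of_tendsto t1 t2 (by
      filter_upwards [hdG] with n hn
      have := key _ hn
      rw [real_inner_smul_right, abs_mul, norm_smul, Real.norm_eq_abs]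
      nlinarith [abs_nonneg (c n)])
    simp only [norm_zero, mul_zero, zero_div] at h5
    exact abs_nonpos_iff.1 h5
  have h6 := hlow (m + t • v)
  have e : m + t • v - p = (m - p) + t • v := by abel
  rw [e, inner_add_right, hself, real_inner_smul_right, hv0] at h6
  nlinarith

end Pool.Agent.Lib.MP_4b56aa_gt
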