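import Pool.Agent.Lib.MP_4b56aa_gt.Proj

/-! The part of a closed curve missed by a connected subset, and the lower bound. -/

namespace Pool.Agent.Lib.MP_4b56aa_gt

open Set Metric Filter Topology MeasureTheory

lemma down_bound (ν : Set ℝ → ENNReal) (hmono : Monotone ν) (h0 : ν ∅ = 0)
    (hU : ∀ s : ℕ → Set ℝ, Monotone s → ν (⋃ n, s n) = ⨆ n, ν (s n))
    {U : Set ℝ} (hb : BddAbove U) (c : ENNReal) :
    ν {t ∈ U | ν (U ∩ Iic t) ≤ c} ≤ c := by
  set L := {t ∈ U | ν (U ∩ Iic t) ≤ c} with hL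
  rcases L.eq_empty_or_nonempty with he | hne
  · rw [he, h0]; exact zero_le
  have hbL : BddAbove L := hb.mono (fun t ht => ht.1)
  by_cases hs : sSup L ∈ L
  · exact le_trans (hmono (show L ⊆ U ∩ Iic (sSup L) from fun t ht => ⟨ht.1, le_csSup hbL ht⟩)) hs.2
  obtain ⟨u, hu, ht, hm⟩ := exists_seq_tendsto_sSup hne hbL
  have h1 : L ⊆ ⋃ n, (U ∩ Iic (u n)) := by
    intro t htL
    have h2 : t < sSup L := lt_of_le_of_ne (le_csSup hbL htL) (fun h => hs (h ▸ htL))
    obtain ⟨n, hn⟩ := (ht.eventually (lt_mem_nhds h2)).exists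
    exact mem_iUnion.2 ⟨n, htL.1, hn.le⟩
  refine le_trans (hmono h1) ?_
  rw [hU _ (fun m n hmn => inter_subset_inter_right _ (Iic_subset_Iic.2 (hu hmn)))]
  exact iSup_le (fun n => (hm n).2)

lemma up_bound (ν : Set ℝ → ENNReal) (hmono : Monotone ν) (h0 : ν ∅ = 0)
    (hU : ∀ s : ℕ → Set ℝ, Monotone s → ν (⋃ n, s n) = ⨆ n, ν (s n))
    {U : Set ℝ} (hb : BddBelow U) (c : ENNReal) :
    ν {t ∈ U | ν (U ∩ Ici t) ≤ c} ≤ c := by
  have h := down_bound (fun s => ν (-s)) (fun s t hst => hmono (neg_subset_neg.2 hst))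
    (by simpa using h0) (fun s hs => by
      rw [← hU (fun n => -s n) (fun m n hmn => neg_subset_neg.2 (hs hmn))]
      congr 1
      ext x
      simp) (U := -U) hb.neg c
  refine le_trans (hmono ?_) h
  intro t ht
  have e : -(-U ∩ Iic (-t)) = U ∩ Ici t := by
    ext x
    simp
  rw [Set.mem_neg]
  refine ⟨by simpa using ht.1, ?_⟩
  rw [e]
  exact ht.2

section curve

variable {X : Type} [TopologicalSpace X] [T2Space X] {γ : ℝ → X} {P : ℝ}

lemma arc_trap (hP : 0 < P) (hγ : Continuous γ) (hper : Function.Periodic γ P)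
    (hinj : ∀ s t, γ s = γ t → |s - t| < P → s = t) {C : Set X} (hC : IsPreconnected C)
    (hCr : C ⊆ range γ) {a t b : ℝ} (hat : a < t) (htb : t < b) (hba : b < a + P)
    (ha : γ a ∉ C) (hb : γ b ∉ C) (ht : γ t ∈ C) : C ⊆ γ '' Icc a b := by
  have h1 : IsClosed (γ '' Icc a b) := (isCompact_Icc.image hγ).isClosed
  have h2 : IsClosed (γ '' Icc b (a + P)) := (isCompact_Icc.image hγ).isClosed
  have h3 : C ⊆ γ '' Icc a b ∪ γ '' Icc b (a + P) := by
    intro x hx
    have := hCr hx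
    rw [← hper.image_Icc hP a] at this
    obtain ⟨s, hs, rfl⟩ := this
    rcases le_total s b with h | h
    · exact Or.inl ⟨s, ⟨hs.1, h⟩, rfl⟩
    · exact Or.inr ⟨s, ⟨h, hs.2⟩, rfl⟩
  have h4 : C ∩ (γ '' Icc a b ∩ γ '' Icc b (a + P)) = ∅ := by
    rw [eq_empty_iff_forall_notMem]
    rintro x ⟨hx, ⟨s, hs, rfl⟩, ⟨s', hs', e⟩⟩
    rcases eq_or_lt_of_le hs.1 with h | h
    · exact ha (h ▸ hx)
    have h5 : s' = s := hinj _ _ e (by rw [abs_lt]; constructor <;> linarith [hs.2, hs'.1, hs'.2])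
    have h6 : s = b := le_antisymm hs.2 (h5 ▸ hs'.1)
    exact hb (h6 ▸ hx)
  rcases isPreconnected_iff_subset_of_disjoint_closed.1 hC _ _ h1 h2 h3 h4 with h | h
  · exact h
  · obtain ⟨s', hs', e⟩ := h ht
    have h5 : s' = t := hinj _ _ e (by rw [abs_lt]; constructor <;> linarith [hs'.1, hs'.2])
    linarith [hs'.1]

lemma gap_bound0 [MeasurableSpace X] (μ : Measure X) (hP : 0 < P) (hγ : Continuous γ)
    (hper : Function.Periodic γ P) (hinj : ∀ s t, γ s = γ t → |s - t| < P → s = t)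
    {T : Set X} (hT : IsPreconnected T) (hTr : T ⊆ range γ) (h0 : γ 0 ∈ T) (c : ENNReal)
    (hC : ∀ m ∈ range γ, ∃ C, C ⊆ range γ ∧ IsPreconnected C ∧ m ∈ C ∧ (C ∩ T).Nonempty ∧
      μ C ≤ c) : μ (range γ \ T) ≤ c + c := by
  set U : Set ℝ := {t ∈ Ioo 0 P | γ t ∉ T} with hUdef
  have hP0 : γ P ∈ T := by
    have := hper 0
    rw [zero_add] at this
    rwa [this]
  have hord : ∀ a ∈ U, ∀ b ∈ U, ∀ t, a ≤ t → t ≤ b → t ∈ U := by
    intro a ha b hb t hat htb
    rcases eq_or_lt_of_le hat with h | h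
    · exact h ▸ ha
    rcases eq_or_lt_of_le htb with h' | h'
    · exact h' ▸ hb
    refine ⟨⟨by linarith [ha.1.1], by linarith [hb.1.2]⟩, fun ht => ?_⟩
    obtain ⟨s, hs, e⟩ := arc_trap hP hγ hper hinj hT hTr h h' (by linarith [ha.1.1, hb.1.2])
      ha.2 hb.2 ht h0
    have := hinj _ _ e (by
      rw [abs_lt]; constructor <;> linarith [hs.1, hs.2, ha.1.1, hb.1.2])
    linarith [hs.1, ha.1.1]
  set ν : Set ℝ → ENNReal := fun s => μ (γ '' s) with hν
  have hmono : Monotone ν := fun s t hst => measure_mono (image_mono hst)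
  have hν0 : ν ∅ = 0 := by simp [hν]
  have hνU : ∀ s : ℕ → Set ℝ, Monotone s → ν (⋃ n, s n) = ⨆ n, ν (s n) := by
    intro s hs
    simp only [hν]
    rw [image_iUnion]
    exact Monotone.measure_iUnion (fun m n hmn => image_mono (hs hmn))
  have hcov : range γ \ T ⊆ γ '' {t ∈ U | ν (U ∩ Iic t) ≤ c} ∪ γ '' {t ∈ U | ν (U ∩ Ici t) ≤ c} := by
    rintro x ⟨hx, hxT⟩
    have hx' := hx
    rw [← hper.image_Icc hP 0, zero_add] at hx'
    obtain ⟨t, ht, rfl⟩ := hx'
    have htU : t ∈ U := by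
      refine ⟨⟨lt_of_le_of_ne ht.1 ?_, lt_of_le_of_ne ht.2 ?_⟩, hxT⟩
      · rintro rfl; exact hxT h0
      · rintro rfl; exact hxT hP0
    obtain ⟨C, hCr, hCc, hm, ⟨z, hzC, hzT⟩, hμ⟩ := hC _ hx
    by_cases h1 : γ '' (U ∩ Iic t) ⊆ C
    · exact Or.inl ⟨t, ⟨htU, le_trans (measure_mono h1) hμ⟩, rfl⟩
    by_cases h2 : γ '' (U ∩ Ici t) ⊆ C
    · exact Or.inr ⟨t, ⟨htU, le_trans (measure_mono h2) hμ⟩, rfl⟩
    exfalso
    obtain ⟨_, ⟨a, ⟨haU, hat⟩, rfl⟩, ha⟩ := not_subset.1 h1
    obtain ⟨_, ⟨b, ⟨hbU, htb⟩, rfl⟩, hb⟩ := not_subset.1 h2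
    have hat' : a < t := lt_of_le_of_ne hat (by rintro rfl; exact ha hm)
    have htb' : t < b := lt_of_le_of_ne htb (by rintro rfl; exact hb hm)
    obtain ⟨s, hs, e⟩ := arc_trap hP hγ hper hinj hCc hCr hat' htb'
      (by linarith [haU.1.1, hbU.1.2]) ha hb hm hzC
    exact (hord a haU b hbU s hs.1 hs.2).2 (e ▸ hzT)
  refine le_trans (measure_mono hcov) (le_trans (measure_union_le _ _) (add_le_add ?_ ?_))
  · exact down_bound ν hmono hν0 hνU ⟨P, fun t ht => ht.1.2.le⟩ c
  · exact up_bound ν hmono hν0 hνU ⟨0, fun t ht => ht.1.1.le⟩ c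

lemma gap_bound [MeasurableSpace X] (μ : Measure X) (hP : 0 < P) (hγ : Continuous γ)
    (hper : Function.Periodic γ P) (hinj : ∀ s t, γ s = γ t → |s - t| < P → s = t)
    {T : Set X} (hT : IsConnected T) (hTr : T ⊆ range γ) (c : ENNReal)
    (hC : ∀ m ∈ range γ, ∃ C, C ⊆ range γ ∧ IsPreconnected C ∧ m ∈ C ∧ (C ∩ T).Nonempty ∧
      μ C ≤ c) : μ (range γ \ T) ≤ c + c := by
  obtain ⟨x, hx⟩ := hT.1
  obtain ⟨t0, rfl⟩ := hTr hx
  have hr : range (fun t => γ (t + t0)) = range γ := by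
    ext y
    constructor
    · rintro ⟨t, rfl⟩; exact ⟨_, rfl⟩
    · rintro ⟨t, rfl⟩; exact ⟨t - t0, by simp⟩
  have := gap_bound0 (γ := fun t => γ (t + t0)) μ hP (hγ.comp (continuous_add_const t0))
    (hper.add_const t0) (fun s t e h => by
      have := hinj _ _ e (by rwa [add_sub_add_right_eq_sub])
      linarith) hT.2 (by rwa [hr]) (by simpa using hx) c (by rwa [hr])
  rwa [hr] at this

end curve

/-- The boundary of a bounded convex neighbourhood of the origin is a simple closed curve. -/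
lemma exists_param {K : Set ℂ} (hc : Convex ℝ K) (h0 : K ∈ 𝓝 (0 : ℂ))
    (hb : Bornology.IsBounded K) : ∃ γ : ℝ → ℂ, Continuous γ ∧ Function.Periodic γ (2 * Real.pi) ∧
      (∀ s t, γ s = γ t → |s - t| < 2 * Real.pi → s = t) ∧ range γ = frontier K := by
  have hvn : Bornology.IsVonNBounded ℝ K := (NormedSpace.isVonNBounded_iff ℝ).2 hb
  have habs : Absorbent ℝ K := absorbent_nhds_zero h0
  have hn : ∀ t : ℝ, ‖circleMap 0 1 t‖ = 1 := fun t => by simp
  have hpos : ∀ t : ℝ, 0 < gauge K (circleMap 0 1 t) := fun t =>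
    (gauge_pos habs hvn).2 (by rw [← norm_ne_zero_iff, hn]; exact one_ne_zero)
  refine ⟨fun t => (gauge K (circleMap 0 1 t))⁻¹ • circleMap 0 1 t, ?_, ?_, ?_, ?_⟩
  · exact (((continuous_gauge hc h0).comp (continuous_circleMap 0 1)).inv₀
      (fun t => (hpos t).ne')).smul (continuous_circleMap 0 1)
  · intro t
    simp only [periodic_circleMap 0 1 t]
  · intro s t e h
    have e1 := congrArg norm e
    simp only [norm_smul, hn, mul_one, Real.norm_eq_abs] at e1
    rw [abs_of_pos (inv_pos.2 (hpos s)), abs_of_pos (inv_pos.2 (hpos t))] at e1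
    simp only at e
    rw [e1] at e
    have e2 := smul_right_injective ℂ (inv_pos.2 (hpos t)).ne' e
    exact eq_of_circleMap_eq one_ne_zero h e2
  · ext z
    rw [← gauge_eq_one_iff_mem_frontier hc h0]
    constructor
    · rintro ⟨t, rfl⟩
      simp only
      rw [gauge_smul_of_nonneg (inv_pos.2 (hpos t)).le, smul_eq_mul, inv_mul_cancel₀ (hpos t).ne']
    · intro h
      have hz : z ≠ 0 := by
        rintro rfl
        rw [gauge_zero] at h
        exact zero_ne_one h
      have hn0 : 0 < ‖z‖ := norm_pos_iff.2 hz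
      have e : circleMap 0 1 (Complex.arg z) = ‖z‖⁻¹ • z := by
        have := Complex.norm_mul_exp_arg_mul_I z
        rw [circleMap, zero_add, Complex.ofReal_one, one_mul, Complex.real_smul, Complex.ofReal_inv,
          eq_inv_mul_iff_mul_eq₀ (by exact_mod_cast hn0.ne')]
        exact this
      refine ⟨Complex.arg z, ?_⟩
      simp only
      rw [e, gauge_smul_of_nonneg (inv_pos.2 hn0).le, h, smul_eq_mul, mul_one, inv_inv, smul_smul,
        mul_inv_cancel₀ hn0.ne', one_smul]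

/-- Lower bound: a connected compact set outside the open `ρ`-neighbourhood of `I` whose
`r`-neighbourhood contains the outer parallel curve is at most `2 r` shorter than the inner one. -/
lemma lower_bound {I : Set ℂ} (hI : IsCompact I) (hc : Convex ℝ I) (h0 : (0 : ℂ) ∈ I)
    {ρ r : ℝ} (hρ : 0 < ρ) (hr : 0 < r) {S : Set ℂ} (hS : IsCompact S) (hSc : IsConnected S)
    (hout : ∀ x ∈ S, ρ ≤ infDist x I) (hcov : ∀ q, infDist q I = ρ + r → q ∈ cthickening r S) :
    Measure.hausdorffMeasure 1 {m : ℂ | infDist m I = ρ} ≤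
      Measure.hausdorffMeasure 1 S + (ENNReal.ofReal r + ENNReal.ofReal r) := by
  have hne : I.Nonempty := ⟨0, h0⟩
  set K := cthickening ρ I with hK
  have hKc : IsCompact K := hI.cthickening
  have hKv : Convex ℝ K := hc.cthickening ρ
  have hKne : K.Nonempty := hne.mono (self_subset_cthickening I)
  have hK0 : K ∈ 𝓝 (0 : ℂ) :=
    mem_of_superset (closedBall_mem_nhds 0 hρ) (closedBall_subset_cthickening h0 ρ)
  obtain ⟨γ, hγ, hper, hinj, hrange⟩ := exists_param hKv hK0 hKc.isBounded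
  have hN : range γ = {m : ℂ | infDist m I = ρ} := by
    rw [hrange]
    ext m
    exact mem_frontier_cth hI hc hne hρ
  choose π hπ using exists_isNear hKc hKne
  have hlip : LipschitzWith 1 π := LipschitzWith.mk_one (fun x y => (hπ x).lip hKv (hπ y))
  have hle : ∀ A : Set ℂ, Measure.hausdorffMeasure 1 (π '' A) ≤ Measure.hausdorffMeasure 1 A := by
    intro A
    simpa using hlip.hausdorffMeasure_image_le zero_le_one A
  have hsub : ∀ A : Set ℂ, (∀ x ∈ A, ρ ≤ infDist x I) → π '' A ⊆ range γ := by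
    rintro A hA _ ⟨x, hx, rfl⟩
    rw [hN]
    exact infDist_near_cth hI hc hne hρ (hA x hx) (hπ x)
  have hgap := gap_bound (Measure.hausdorffMeasure 1) Real.two_pi_pos hγ hper hinj
    (hSc.image π hlip.continuous.continuousOn) (hsub S hout) (ENNReal.ofReal r) (by
      intro m hm
      rw [hN] at hm
      obtain ⟨q, hq, hqm⟩ := exists_outer hI hc hne hρ hr hm
      obtain ⟨s, hs⟩ := exists_isNear hS hSc.1 q
      have hd : dist q s ≤ r := by
        rw [← hs.infDist_eq]
        exact (mem_cth hSc.1 hr.le).1 (hcov q hq)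
      have hmq : π q = m := by
        have := (hπ q).lip hKv hqm
        rw [dist_self] at this
        exact dist_le_zero.1 this
      refine ⟨π '' segment ℝ q s, hsub _ ?_,
        (convex_segment q s).isPreconnected.image π hlip.continuous.continuousOn,
        ⟨q, left_mem_segment ℝ q s, hmq⟩,
        ⟨π s, ⟨s, right_mem_segment ℝ q s, rfl⟩, ⟨s, hs.1, rfl⟩⟩, ?_⟩
      · intro x hx
        have h1 : dist q x ≤ r := by
          have := dist_add_dist_of_mem_segment hx
          linarith [dist_nonneg (x := x) (y := s)]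
        have h2 : infDist q I ≤ infDist x I + dist q x := infDist_le_infDist_add_dist
        linarith
      · refine le_trans (hle _) ?_
        rw [hausdorffMeasure_segment, edist_dist]
        exact ENNReal.ofReal_le_ofReal hd)
  rw [← hN]
  calc Measure.hausdorffMeasure 1 (range γ)
      ≤ Measure.hausdorffMeasure 1 (π '' S ∪ (range γ \ π '' S)) :=
        measure_mono (fun x hx => by
          by_cases h : x ∈ π '' S
          · exact Or.inl h
          · exact Or.inr ⟨hx, h⟩)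
    _ ≤ _ := measure_union_le _ _
    _ ≤ _ := add_le_add (hle S) hgap

end Pool.Agent.Lib.MP_4b56aa_gt
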