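import Pool.Agent.Lib.MP_4b56aa_gt.Defs
import Pool.Agent.Lib.MP_4b56aa_gt.Comp

/-! Long stadia with `R < (1 + √6 - √2) r`: sets outside the inner parallel body are beaten. -/

namespace Pool.Agent.Lib.MP_4b56aa_gt

open Set Metric Filter Topology MeasureTheory

lemma params {ρ r : ℝ} (hρ : 0 < ρ) (hr : 0 < r) (h : ρ < (√6 - √2) * r) :
    ∃ a s σ w : ℝ, 0 ≤ a ∧ 0 ≤ s ∧ a ^ 2 + s ^ 2 ≤ r ^ 2 ∧ 0 ≤ w ∧
      a ^ 2 + (ρ + r - s - σ) ^ 2 ≤ w ^ 2 ∧ |σ| + 2 * w - 2 * a < r := by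
  rcases lt_or_ge ρ r with c | c
  · exact ⟨0, r, ρ, 0, le_rfl, hr.le, by simp, le_rfl, by simp, by rw [abs_of_pos hρ]; linarith⟩
  have hu : √2 ^ 2 = 2 := Real.sq_sqrt (by norm_num)
  have hv : √6 ^ 2 = 6 := Real.sq_sqrt (by norm_num)
  have hu1 : 1.4 ≤ √2 := Real.le_sqrt_of_sq_le (by norm_num)
  have hu2 : √2 ≤ 1.5 := Real.sqrt_le_iff.2 ⟨by norm_num, by norm_num⟩
  have hv1 : 2.4 ≤ √6 := Real.le_sqrt_of_sq_le (by norm_num)
  have hv2 : √6 ≤ 2.5 := Real.sqrt_le_iff.2 ⟨by norm_num, by norm_num⟩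
  set u := √2
  set v := √6
  refine ⟨r * (v - u) / 4, r * (v + u) / 4, ρ + r - r * (v + u) / 4 - r * (3 * u - v) / 12,
    r * (3 * u - v) / 6, by nlinarith, by nlinarith, le_of_eq ?_, by nlinarith, le_of_eq ?_, ?_⟩
  · linear_combination (r ^ 2 / 8) * hu + (r ^ 2 / 8) * hv
  · linear_combination (-r ^ 2 / 8) * hu + (r ^ 2 / 24) * hv
  · rw [abs_of_nonneg (by nlinarith)]
    nlinarith

lemma core {ρ r : ℝ} (hρ : 0 < ρ) (hr : 0 < r) (h : ρ < (√6 - √2) * r) :
    ∃ L : ℝ, 0 < L ∧ ∀ l, L ≤ l → ∀ S : Set ℂ, IsCompact S → IsConnected S →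
      (∀ x ∈ S, ρ ≤ infDist x (seg l)) →
      (∀ q, infDist q (seg l) = ρ + r → q ∈ cthickening r S) →
      ∃ T : Set ℂ, IsCompact T ∧ IsConnected T ∧
        (∀ q, infDist q (seg l) = ρ + r → q ∈ cthickening r T) ∧
        Measure.hausdorffMeasure 1 T < Measure.hausdorffMeasure 1 S := by
  obtain ⟨a, s, σ, w, ha, hs, has, hw, haw, hgain⟩ := params hρ hr h
  set ε := (r - (|σ| + 2 * w - 2 * a)) / 4 with hεd
  have hε : 0 < ε := by rw [hεd]; linarith
  have h1 : 0 < 2 * r ^ 2 / ε := by positivity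
  refine ⟨8 * r + 2 * r ^ 2 / ε, by linarith, fun l hl S hS hSc hout hcov => ?_⟩
  have hl0 : 0 < l := by linarith
  have hl2 : 2 * r ^ 2 ≤ l * ε := by
    rw [← div_le_iff₀ hε]; linarith
  obtain ⟨T, hT, hTc, hTcov, hlt⟩ := competitor (l := l) hρ hr ha hs has hw haw hε (by linarith)
    hl2 (by rw [hεd]; linarith)
  refine ⟨T, hT, hTc, hTcov, ?_⟩
  have h2 := lower_bound (seg_compact _ _) (convex_segment _ _)
    ((mem_seg hl0).2 ⟨rfl, by simpa using hl0.le⟩) hρ hr hS hSc hout hcov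
  exact lt_of_add_lt_add_right (lt_of_lt_of_le hlt h2)

lemma exists_iso {a b : Plane} (hab : a ≠ b) : ∃ f : ℂ → Plane, Isometry f ∧
    Function.Surjective f ∧ f '' seg (dist a b / 2) = segment ℝ a b := by
  set φ := Complex.orthonormalBasisOneI.repr with hφ
  set a' := φ.symm a with ha'
  set b' := φ.symm b with hb'
  have hd : ‖b' - a'‖ = dist a b := by
    rw [← dist_eq_norm, dist_comm, ha', hb', φ.symm.dist_map]
  have hpos : 0 < dist a b := dist_pos.2 hab
  have hne : ((dist a b : ℝ) : ℂ) ≠ 0 := by exact_mod_cast hpos.ne'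
  set u : ℂ := (b' - a') / (dist a b : ℝ) with hu
  have hu1 : ‖u‖ = 1 := by
    rw [hu, norm_div, hd, Complex.norm_real, Real.norm_of_nonneg hpos.le, div_self hpos.ne']
  have hu0 : u ≠ 0 := by rw [← norm_ne_zero_iff, hu1]; exact one_ne_zero
  refine ⟨fun z => φ ((a' + b') / 2 + u * z), ?_, ?_, ?_⟩
  · apply Isometry.of_dist_eq
    intro x y
    rw [φ.dist_map, dist_eq_norm, dist_eq_norm, add_sub_add_left_eq_sub, ← mul_sub, norm_mul, hu1,
      one_mul]
  · intro p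
    refine ⟨(φ.symm p - (a' + b') / 2) / u, ?_⟩
    simp only
    rw [mul_div_cancel₀ _ hu0, add_sub_cancel, φ.apply_symm_apply]
  · rw [seg, segment_eq_image, segment_eq_image, image_image]
    apply image_congr
    intro θ _
    have e : (a' + b') / 2 + u * ((1 - θ) • (-((dist a b / 2 : ℝ) : ℂ)) +
        θ • ((dist a b / 2 : ℝ) : ℂ)) = (1 - θ) • a' + θ • b' := by
      simp only [Complex.real_smul, hu]
      push_cast
      field_simp
      ring
    rw [e, map_add, map_smul, map_smul, ha', hb', φ.apply_symm_apply, φ.apply_symm_apply]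

lemma core_plane {r R : ℝ} (hr : 0 < r) (h1 : r < R) (h2 : R < (1 + √6 - √2) * r) :
    ∃ L : ℝ, 0 < L ∧ ∀ a b : Plane, L ≤ dist a b → ∀ S : Set Plane,
      Admissible r (stadium R a b) S → (∀ x ∈ S, R - r ≤ infDist x (segment ℝ a b)) →
      ∃ T : Set Plane, Admissible r (stadium R a b) T ∧
        Measure.hausdorffMeasure 1 T < Measure.hausdorffMeasure 1 S := by
  obtain ⟨L, hL, hcore⟩ := core (ρ := R - r) (by linarith) hr (by linarith)
  refine ⟨2 * L, by linarith, fun a b hab S hS hout => ?_⟩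
  have hne : a ≠ b := by
    rintro rfl
    rw [dist_self] at hab
    linarith
  obtain ⟨f, hf, hsurj, him⟩ := exists_iso hne
  set e : ℂ ≃ᵢ Plane := ⟨Equiv.ofBijective f ⟨hf.injective, hsurj⟩, hf⟩ with he
  have hef : ∀ z, e z = f z := fun z => rfl
  have hI : ∀ z, infDist (f z) (segment ℝ a b) = infDist z (seg (dist a b / 2)) := by
    intro z
    rw [← him, infDist_image hf]
  have hM : ∀ p, p ∈ stadium R a b ↔ infDist p (segment ℝ a b) = R := fun p =>
    mem_frontier_cth (seg_compact a b) (convex_segment a b) ⟨a, left_mem_segment ℝ a b⟩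
      (by linarith)
  have hth : ∀ (A : Set ℂ) (z : ℂ), f z ∈ cthickening r (f '' A) ↔ z ∈ cthickening r A := by
    intro A z
    rw [mem_cthickening_iff, mem_cthickening_iff, infEDist_image hf]
  have hSim : f '' (e.symm '' S) = S := by
    rw [image_image]
    simp only [← hef, e.apply_symm_apply, image_id']
  obtain ⟨T, hT, hTc, hTcov, hlt⟩ := hcore (dist a b / 2) (by linarith) (e.symm '' S)
    (hS.1.image e.symm.continuous) (hS.2.1.image _ e.symm.continuous.continuousOn)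
    (by
      intro x hx
      rw [← hI]
      exact hout _ (hSim ▸ mem_image_of_mem f hx))
    (by
      intro q hq
      rw [← hth, hSim]
      apply hS.2.2
      rw [hM, hI, hq]
      ring)
  refine ⟨f '' T, ⟨hT.image hf.continuous, hTc.image _ hf.continuous.continuousOn, ?_⟩, ?_⟩
  · intro p hp
    obtain ⟨z, rfl⟩ := hsurj p
    rw [hth]
    apply hTcov
    rw [hM, hI] at hp
    rw [hp]
    ring
  · rw [hf.hausdorffMeasure_image (Or.inl zero_le_one)]
    rwa [e.symm.hausdorffMeasure_image] at hlt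

lemma horseshoe_outside {r R : ℝ} (h1 : r < R) {a b : Plane} {H : Set Plane}
    (hH : IsHorseshoe r R a b H) : ∀ x ∈ H, R - r ≤ infDist x (segment ℝ a b) := by
  obtain ⟨g, p, q, -, -, hg, hp, hq, rfl⟩ := hH
  have hne : (segment ℝ a b).Nonempty := ⟨a, left_mem_segment ℝ a b⟩
  have hG : ∀ x ∈ g '' Icc 0 1, infDist x (segment ℝ a b) = R - r := fun x hx =>
    (mem_frontier_cth (seg_compact a b) (convex_segment a b) hne (by linarith)).1 (hg hx)
  have hseg : ∀ m v : Plane, m ∈ g '' Icc 0 1 → v - m ∈ tangentConeAt ℝ (g '' Icc 0 1) m →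
      ∀ x ∈ segment ℝ m v, R - r ≤ infDist x (segment ℝ a b) := by
    intro m v hm hv x hx
    rw [segment_eq_image'] at hx
    obtain ⟨t, -, rfl⟩ := hx
    exact tangent_outside (seg_compact a b) (convex_segment a b) hne (by linarith) hG (hG m hm) hv t
  rintro x ((hx | hx) | hx)
  · exact (hG x hx).ge
  · exact hseg _ _ ⟨0, ⟨le_rfl, zero_le_one⟩, rfl⟩ hp x hx
  · exact hseg _ _ ⟨1, ⟨zero_le_one, le_rfl⟩, rfl⟩ hq x hx

theorem no_horseshoe {r R : ℝ} (hr : 0 < r) (h1 : r < R) (h2 : R < (1 + √6 - √2) * r) :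
    ∃ L : ℝ, 0 < L ∧ ∀ a b : Plane, L ≤ dist a b → ∀ S : Set Plane,
      IsMinimizer r (stadium R a b) S → ¬ IsHorseshoe r R a b S := by
  obtain ⟨L, hL, h⟩ := core_plane hr h1 h2
  refine ⟨L, hL, fun a b hab S hS hH => ?_⟩
  obtain ⟨T, hT, hlt⟩ := h a b hab S hS.1 (horseshoe_outside h1 hH)
  exact absurd (hS.2 T hT) (not_le.2 hlt)

end Pool.Agent.Lib.MP_4b56aa_gt
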