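import Pool.Agent.Lib.MP_4b56aa_gt.Main

set_option autoImplicit false

namespace Pool.Agent.Lib.MP_4b56aa_gt.OldStadiumLower

open Pool.Agent.Lib.MP_4b56aa_gt

/-- For `r < R < (1 + √6 - √2) r` no `r`-minimizer of a long enough `R`-stadium is a horseshoe. -/
theorem result (r R : ℝ) (hr : 0 < r) (h1 : r < R) (h2 : R < (1 + √6 - √2) * r) :
    ∃ L : ℝ, 0 < L ∧ ∀ a b : Plane, L ≤ dist a b → ∀ S : Set Plane,
      IsMinimizer r (stadium R a b) S → ¬ IsHorseshoe r R a b S :=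
  no_horseshoe hr h1 h2

end Pool.Agent.Lib.MP_4b56aa_gt.OldStadiumLower
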